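import Pool.Agent.V5helper35.AS.StmB

/-!
# Project AS, part 4: HNN extensions along a cyclic subgroup
-/

set_option autoImplicit false

namespace Pool.Agent.V5helper3.AS

open Pool.Agent.R387.TC Pool.Agent.N77.CS Pool.Agent.N77.CS.ASM Pool.Agent.V5helper35.AS

section

variable {l : ℕ} {w : F l}

theorem e_inc (x : F l) : ehn w (inc l x) = inc l x := homExt_inc _ _ _

theorem e_tt : ehn w (tt l) = tt l * inc l w * (tt l)⁻¹ := homExt_tt _ _

/-- the endomorphism made from `τ` and `h` -/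
def fn (w : F l) (τ : MulAut (F (l + 1))) (h : F (l + 1)) : F (l + 1) →* F (l + 1) :=
  homExt ((ehn w).comp (τ.toMonoidHom.comp (inc l))) (tt l * (ehn w h)⁻¹)

theorem fn_inc (τ : MulAut (F (l + 1))) (h : F (l + 1)) (x : F l) :
    fn w τ h (inc l x) = ehn w (τ (inc l x)) := homExt_inc _ _ _

theorem fn_tt (τ : MulAut (F (l + 1))) (h : F (l + 1)) :
    fn w τ h (tt l) = tt l * (ehn w h)⁻¹ := homExt_tt _ _

theorem fn_e {τ : MulAut (F (l + 1))} {h : F (l + 1)} (hτ : τ (tt l) = tt l)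
    (h1 : τ (inc l w) = h * inc l w * h⁻¹) (y : F (l + 1)) :
    fn w τ h (ehn w y) = ehn w (τ y) := by
  have h2 : (fn w τ h).comp (ehn w) = (ehn w).comp τ.toMonoidHom := by
    apply hom_ext
    · intro x
      show fn w τ h (ehn w (inc l x)) = ehn w (τ (inc l x))
      rw [e_inc, fn_inc]
    · show fn w τ h (ehn w (tt l)) = ehn w (τ (tt l))
      rw [hτ, e_tt, map_mul, map_mul, map_inv, fn_tt, fn_inc, h1, map_mul, map_mul, map_inv, e_inc]
      group
  exact DFunLike.congr_fun h2 y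

theorem fn_comp {τ τ' : MulAut (F (l + 1))} {h h' : F (l + 1)} (hτ' : τ' (tt l) = tt l)
    (h1' : τ' (inc l w) = h' * inc l w * h'⁻¹) (hi : ∀ y, τ' (τ y) = y) (hh : τ' h = h'⁻¹) :
    (fn w τ' h').comp (fn w τ h) = MonoidHom.id _ := by
  apply hom_ext
  · intro x
    rw [MonoidHom.comp_apply, fn_inc, fn_e hτ' h1', hi, e_inc]
    rfl
  · rw [MonoidHom.comp_apply, fn_tt, map_mul, map_inv, fn_tt, fn_e hτ' h1', hh, map_inv, inv_inv,
      inv_mul_cancel_right]
    rfl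

/-- every `τ` comes from some `φ` -/
theorem ex_phi {τ : MulAut (F (l + 1))} {h : F (l + 1)} (hτ : τ (tt l) = tt l)
    (h1 : τ (inc l w) = h * inc l w * h⁻¹) :
    ∃ φ : MulAut (F (l + 1)), ∀ y, φ (ehn w y) = ehn w (τ y) := by
  have hτ' : τ⁻¹ (tt l) = tt l := by
    conv_lhs => rw [← hτ]
    exact MulAut.inv_apply_self _ _ _
  have h1' : τ⁻¹ (inc l w) = (τ⁻¹ h)⁻¹ * inc l w * ((τ⁻¹ h)⁻¹)⁻¹ := by
    have h2 : (τ⁻¹ : MulAut (F (l + 1))) (τ (inc l w)) =
        (τ⁻¹ : MulAut (F (l + 1))) (h * inc l w * h⁻¹) := by rw [h1]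
    rw [MulAut.inv_apply_self, map_mul, map_mul, map_inv] at h2
    conv_rhs => rw [h2]
    group
  refine ⟨MonoidHom.toMulEquiv (fn w τ h) (fn w τ⁻¹ (τ⁻¹ h)⁻¹) ?_ ?_, fun y => fn_e hτ h1 y⟩
  · exact fn_comp hτ' h1' (fun y => MulAut.inv_apply_self _ _ _) (by rw [inv_inv])
  · exact fn_comp hτ h1 (fun y => MulAut.apply_inv_self _ _ _)
      (by rw [map_inv, MulAut.apply_inv_self])

/-- the retraction -/
def rt (l : ℕ) : F (l + 1) →* F l := homExt (MonoidHom.id _) 1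

theorem rt_inc (x : F l) : rt l (inc l x) = x := homExt_inc _ _ _

theorem notPow_inc (hw : NotPow w) : NotPow (inc l w) := by
  refine ⟨fun h => hw.1 ?_, fun v j h => hw.2 (rt l v) j ?_⟩
  · have h1 := congrArg (rt l) h
    rwa [rt_inc, map_one] at h1
  · have h1 := congrArg (rt l) h
    rwa [rt_inc, map_zpow] at h1

theorem notPow_conj {n : ℕ} {v : F n} (g : F n) (hv : NotPow v) : NotPow (g * v * g⁻¹) := by
  refine ⟨fun h => hv.1 ?_, fun u j h => hv.2 (g⁻¹ * u * g) j ?_⟩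
  · have h1 : v = g⁻¹ * (g * v * g⁻¹) * g := by group
    rw [h1, h]
    group
  · have h1 : v = g⁻¹ * (g * v * g⁻¹) * g := by group
    have h2 : (g⁻¹ * u * g) ^ j = g⁻¹ * u ^ j * g := by
      have h3 := conj_zpow (i := j) (a := g⁻¹) (b := u)
      rwa [inv_inv] at h3
    rw [h2, h1, h]

/-- the twist -/
def tw (w : F l) (j : ℤ) : MulAut (F (l + 1)) := nu l (1, w ^ j)

theorem tw_inc (j : ℤ) (x : F l) : tw w j (inc l x) = inc l x := nu_inc _ _

theorem tw_tt (j : ℤ) : tw w j (tt l) = tt l * inc l w ^ j := by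
  rw [tw, nu_tt, map_one, inv_one, one_mul, map_zpow]

theorem tw_pow (j : ℤ) : tw w j = tw w 1 ^ j := by
  unfold tw
  rw [← map_zpow, Prod.pow_mk, one_zpow, zpow_one]

theorem tw_e (j : ℤ) (y : F (l + 1)) : tw w j (ehn w y) = ehn w y := by
  have h2 : (tw w j).toMonoidHom.comp (ehn w) = ehn w := by
    apply hom_ext
    · intro x
      show tw w j (ehn w (inc l x)) = ehn w (inc l x)
      rw [e_inc, tw_inc]
    · show tw w j (ehn w (tt l)) = ehn w (tt l)
      rw [e_tt, map_mul, map_mul, map_inv, tw_tt, tw_inc]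
      group
  exact DFunLike.congr_fun h2 y

/-- the automorphisms which come from `1` are twists -/
theorem ker_tw (hCEN : S_CEN) (hw : NotPow w) {ψ : MulAut (F (l + 1))}
    (hψ : ∀ y, ψ (ehn w y) = ehn w y) : ∃ j : ℤ, ψ = tw w j := by
  have h1 : ∀ x, ψ (inc l x) = inc l x := fun x => by
    have := hψ (inc l x)
    rwa [e_inc] at this
  have h2 := hψ (tt l)
  rw [e_tt, map_mul, map_mul, map_inv, h1] at h2
  have h3 : ((tt l)⁻¹ * ψ (tt l)) * inc l w = inc l w * ((tt l)⁻¹ * ψ (tt l)) := by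
    have h4 : ψ (tt l) * inc l w = tt l * inc l w * (tt l)⁻¹ * ψ (tt l) := by
      rw [← h2]
      group
    rw [mul_assoc, h4]
    group
  obtain ⟨j, hj⟩ := hCEN (l + 1) (inc l w) (notPow_inc hw) _ h3
  refine ⟨j, mulAut_ext (fun x => by rw [h1, tw_inc]) ?_⟩
  rw [tw_tt, ← hj, mul_inv_cancel_left]

end

theorem map_rel {G : Type} [Group G] (C : Subgroup G) (H : Subgroup C) [hH : H.FiniteIndex] :
    (H.map C.subtype).relIndex C ≠ 0 := by
  have h : H ≤ (H.map C.subtype).subgroupOf C := by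
    intro x hx
    exact ⟨x, hx, rfl⟩
  exact (Subgroup.finiteIndex_of_le h).index_ne_zero

theorem t_HNC (hGAD : S_GAD2) (hCW : S_CW) (hPOT : S_POT) (hCEN : S_CEN) : S_HNC := by
  intro l D w P hw hD hDt hDw hcD hP
  have hTP : ∀ j : ℤ, tw w j ∈ P := fun j => (hP _).2 ⟨1, D.one_mem, fun y => tw_e j y⟩
  refine ⟨by omega, ?_, Subgroup.zpowers (ehn w (tt l)), ?_, ?_⟩
  · intro V hVP hV
    have hV' : (V.subgroupOf P).FiniteIndex := ⟨hV⟩
    set N : Subgroup P := (V.subgroupOf P).normalCore with hN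
    have hNV : ∀ v : P, v ∈ N → (v : MulAut (F (l + 1))) ∈ V := fun v hv =>
      Subgroup.mem_subgroupOf.1 (Subgroup.normalCore_le _ hv)
    have hNfi : N.FiniteIndex := inferInstance
    -- a power of the twist
    let T : P := ⟨tw w 1, hTP 1⟩
    obtain ⟨d, hd0, -, hd⟩ := Subgroup.exists_pow_mem_of_index_ne_zero hNfi.index_ne_zero T
    obtain ⟨M, hcM, hfM, hM⟩ := hPOT (l + 1) (inc l w) (notPow_inc hw).1 d hd0
    have hMn : M.Normal := inferInstance
    have hTM : (trivSub M).FiniteIndex := trivSub_fin M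
    let V1 : Subgroup P := N ⊓ (trivSub M).subgroupOf P
    have hV1 : V1.FiniteIndex := inferInstance
    -- the image in `D`
    let W : Subgroup D :=
      { carrier := {τ | ∃ φ : P, φ ∈ V1 ∧ ∀ y, φ.1 (ehn w y) = ehn w (τ.1 y)}
        mul_mem' := by
          rintro a b ⟨φ, hφ, h1⟩ ⟨φ', hφ', h1'⟩
          refine ⟨φ * φ', V1.mul_mem hφ hφ', fun y => ?_⟩
          show φ.1 (φ'.1 (ehn w y)) = ehn w (a.1 (b.1 y))
          rw [h1', h1]
        one_mem' := ⟨1, V1.one_mem, fun y => rfl⟩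
        inv_mem' := by
          rintro a ⟨φ, hφ, h1⟩
          refine ⟨φ⁻¹, V1.inv_mem hφ, fun y => ?_⟩
          show φ.1⁻¹ (ehn w y) = ehn w (a.1⁻¹ y)
          have h2 := h1 (a.1⁻¹ y)
          rw [MulAut.apply_inv_self] at h2
          rw [← h2, MulAut.inv_apply_self] }
    have hsec : ∀ τ : D, ∃ φ : P, ∀ y, φ.1 (ehn w y) = ehn w (τ.1 y) := by
      intro τ
      obtain ⟨h, hh⟩ := hDw τ.1 τ.2
      obtain ⟨φ, hφ⟩ := ex_phi (hDt τ.1 τ.2) hh
      exact ⟨⟨φ, (hP φ).2 ⟨τ.1, τ.2, hφ⟩⟩, hφ⟩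
    choose s hs using hsec
    have hWq : Finite (D ⧸ W) := by
      have : Finite (P ⧸ V1) := inferInstance
      refine Finite.of_injective (fun c : D ⧸ W => (QuotientGroup.mk (s c.out) : P ⧸ V1)) ?_
      intro c c' hcc
      have h1 : (s c.out)⁻¹ * s c'.out ∈ V1 := QuotientGroup.eq.1 hcc
      have h2 : (c.out)⁻¹ * c'.out ∈ W := by
        refine ⟨_, h1, fun y => ?_⟩
        show (s c.out).1⁻¹ ((s c'.out).1 (ehn w y)) = ehn w ((c.out).1⁻¹ ((c'.out).1 y))
        rw [hs]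
        have h3 := hs c.out ((c.out).1⁻¹ ((c'.out).1 y))
        rw [MulAut.apply_inv_self] at h3
        rw [← h3, MulAut.inv_apply_self]
      rw [← QuotientGroup.out_eq' c, ← QuotientGroup.out_eq' c']
      exact QuotientGroup.eq.2 h2
    have hWf : W.FiniteIndex := Subgroup.finiteIndex_of_finite_quotient
    obtain ⟨KD, hcK, hfK, hKD⟩ := hD (W.map D.subtype) (Subgroup.map_subtype_le _) (map_rel D _)
    have hnK : KD.Normal := inferInstance
    obtain ⟨K1, hc1, hf1, hK1⟩ := hGAD l w hw.1 KD hnK hfK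
    refine ⟨K1 ⊓ M, char_inf hc1 hcM, inferInstance, ?_⟩
    intro φ hφP hφ
    obtain ⟨τ, hτ, h2⟩ := (hP φ).1 hφP
    have tD : Triv KD τ := by
      intro y
      have h3 := (hφ (ehn w y)).1
      rw [h2, ← map_inv, ← map_mul] at h3
      exact hK1 _ h3
    obtain ⟨c, ⟨φ1, hφ1, h4⟩, hcτ⟩ := hKD τ hτ tD
    have hcτ' : c.1 = τ := hcτ
    have h5 : ∀ y, (φ1.1⁻¹ * φ) (ehn w y) = ehn w y := by
      intro y
      rw [MulAut.mul_apply, h2, ← hcτ', ← h4, MulAut.inv_apply_self]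
    obtain ⟨j, hj⟩ := ker_tw hCEN hw h5
    have h6 : φ1.1 ∈ trivSub M := Subgroup.mem_subgroupOf.1 hφ1.2
    have h7 : φ ∈ trivSub M := fun x => (hφ x).2
    have h8 : φ1.1⁻¹ * φ ∈ trivSub M := (trivSub M).mul_mem ((trivSub M).inv_mem h6) h7
    rw [hj] at h8
    have h9 : tw w j (tt l) * (tt l)⁻¹ ∈ M := h8 (tt l)
    rw [tw_tt] at h9
    have h10 : inc l w ^ j ∈ M := by
      have h11 := hMn.conj_mem _ h9 (tt l)⁻¹
      have h12 : (tt l)⁻¹ * (tt l * inc l w ^ j * (tt l)⁻¹) * ((tt l)⁻¹)⁻¹ = inc l w ^ j := by group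
      rwa [h12] at h11
    obtain ⟨m, hm⟩ := hM j h10
    have h13 : T ^ j ∈ N := by
      rw [hm, zpow_mul, zpow_natCast]
      exact N.zpow_mem hd m
    have h14 : φ1 * T ^ j ∈ N := N.mul_mem hφ1.1 h13
    have h15 : ((φ1 * T ^ j : P) : MulAut (F (l + 1))) = φ := by
      show φ1.1 * ((T ^ j : P) : MulAut (F (l + 1))) = φ
      rw [Subgroup.coe_zpow]
      show φ1.1 * (tw w 1) ^ j = φ
      rw [← tw_pow, ← hj, mul_inv_cancel_left]
    have h16 := hNV _ h14
    rwa [h15] at h16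
  · intro L hLn hLf
    have hnp : NotPow (ehn w (tt l)) := by
      rw [e_tt]
      exact notPow_conj _ (notPow_inc hw)
    obtain ⟨K, hcK, hfK, hKL, hK⟩ := hCW (l + 1) (ehn w (tt l)) hnp L hLn hLf
    refine ⟨K, hcK, hfK, hKL, ?_⟩
    intro φ hφ g hg
    obtain ⟨τ, hτ, h2⟩ := (hP φ).1 hφ
    have h3 := hg (ehn w (tt l))
    rw [h2, hDt τ hτ] at h3
    have h4 := K.inv_mem h3
    rw [mul_inv_rev, inv_inv] at h4
    obtain ⟨i, hi⟩ := hK g h4
    exact ⟨ehn w (tt l) ^ i, ⟨i, rfl⟩, hi⟩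
  · rintro _ ⟨i, rfl⟩
    have h1 : MulAut.conj (ehn w (tt l)) ∈ P := by
      refine (hP _).2 ⟨MulAut.conj (tt l), hcD, fun y => ?_⟩
      rw [MulAut.conj_apply, MulAut.conj_apply, map_mul, map_mul, map_inv]
    show MulAut.conj (ehn w (tt l) ^ i) ∈ P
    rw [map_zpow]
    exact P.zpow_mem h1 i

end Pool.Agent.V5helper3.AS
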